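import Mathlib

/-! Unitriangular maps and the change of basis for a quadratic extension. -/

noncomputable section

namespace Pool.Agent.Helper60.Sn

/-- A unitriangular additive endomorphism is bijective. -/
theorem tri_bijective {V : Type} [AddCommGroup V] (N : (ℕ →₀ V) →+ (ℕ →₀ V)) (s : ℕ → ℤ)
    (hs : ∀ D, s D * s D = 1) (h0 : ∀ D v l, D < l → N (Finsupp.single D v) l = 0)
    (h1 : ∀ D v, N (Finsupp.single D v) D = s D • v) : Function.Bijective N := by
  classical
  have hss : ∀ D (v : V), s D • s D • v = v := fun D v => by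
    rw [smul_smul, hs, one_smul]
  constructor
  · rw [injective_iff_map_eq_zero]
    intro f hf
    by_contra hne
    have hsupp : f.support.Nonempty := Finsupp.support_nonempty_iff.2 hne
    let D := f.support.max' hsupp
    have hD : D ∈ f.support := f.support.max'_mem hsupp
    have h2 : N f = ∑ a ∈ f.support, N (Finsupp.single a (f a)) := by
      conv_lhs => rw [← Finsupp.sum_single f]
      rw [Finsupp.sum, map_sum]
    have h3 : N f D = s D • f D := by
      rw [h2, Finsupp.finsetSum_apply, Finset.sum_eq_single D]
      · exact h1 D _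
      · intro a ha haD
        exact h0 a _ D (lt_of_le_of_ne (f.support.le_max' a ha) haD)
      · intro h
        exact absurd hD h
    rw [hf] at h3
    have h4 : f D = 0 := by
      rw [← hss D (f D), ← h3, Finsupp.coe_zero, Pi.zero_apply, smul_zero]
    exact (Finsupp.mem_support_iff.1 hD) h4
  · have key : ∀ n, ∀ g : ℕ →₀ V, (∀ l, n ≤ l → g l = 0) → ∃ f, N f = g := by
      intro n
      induction n with
      | zero =>
        intro g hg
        refine ⟨0, ?_⟩
        rw [map_zero]
        ext l
        rw [hg l (Nat.zero_le l)]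
        rfl
      | succ n ih =>
        intro g hg
        obtain ⟨f, hf⟩ := ih (g - N (Finsupp.single n (s n • g n))) (by
          intro l hl
          rw [Finsupp.coe_sub, Pi.sub_apply]
          rcases hl.eq_or_lt with rfl | hl
          · rw [h1, hss, sub_self]
          · rw [hg l hl, h0 n _ l hl, sub_zero])
        refine ⟨f + Finsupp.single n (s n • g n), ?_⟩
        rw [map_add, hf, sub_add_cancel]
    intro g
    refine key (g.support.sup id + 1) g fun l hl => ?_
    by_contra h
    have h2 : l ≤ g.support.sup id := Finset.le_sup (f := id) (Finsupp.mem_support_iff.2 h)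
    omega

/-- the shift -/
def shift (V : Type) [AddCommGroup V] : (ℕ →₀ V) →+ (ℕ →₀ V) :=
  Finsupp.mapDomain.addMonoidHom Nat.succ

theorem shift_succ {V : Type} [AddCommGroup V] (f : ℕ →₀ V) (n : ℕ) :
    shift V f (n + 1) = f n :=
  Finsupp.mapDomain_apply Nat.succ_injective f n

theorem shift_single {V : Type} [AddCommGroup V] (n : ℕ) (v : V) :
    shift V (Finsupp.single n v) = Finsupp.single (n + 1) v :=
  Finsupp.mapDomain_single

/-- Change of basis for a quadratic extension. -/
theorem quad_bijective {G V : Type} [AddCommGroup G] [AddCommGroup V] (j : V →+ G)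
    (t α β : AddMonoid.End G) (αV βV : AddMonoid.End V) (hα : ∀ v, α (j v) = j (αV v))
    (hβ : ∀ v, β (j v) = j (βV v)) (hαt : α * t = t * α) (hβt : β * t = t * β)
    (hT : Function.Bijective (fun f : ℕ →₀ V => f.sum fun l v => (t ^ l) (j v)))
    (x : AddMonoid.End G) (hx : x = α + β * t - t * t) :
    Function.Bijective (fun f : ℕ →₀ V => f.sum fun D v => (x ^ (D / 2) * t ^ (D % 2)) (j v)) := by
  let T : (ℕ →₀ V) →+ G := Finsupp.liftAddHom fun l => (t ^ l : AddMonoid.End G).comp j
  have hTa : ∀ f, T f = f.sum fun l v => (t ^ l) (j v) := fun f => rfl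
  have hTb : Function.Bijective T := hT
  have hTs : ∀ l v, T (Finsupp.single l v) = (t ^ l) (j v) := fun l v => by
    rw [hTa, Finsupp.sum_single_index (by rw [map_zero, map_zero])]
  let S : (ℕ →₀ V) →+ G := Finsupp.liftAddHom fun D =>
    (x ^ (D / 2) * t ^ (D % 2) : AddMonoid.End G).comp j
  have hSs : ∀ D v, S (Finsupp.single D v) = (x ^ (D / 2) * t ^ (D % 2)) (j v) := fun D v => by
    change (Finsupp.single D v).sum _ = _
    rw [Finsupp.sum_single_index]
    · rfl
    · exact map_zero _
  change Function.Bijective S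
  -- the transported operators
  let mα : (ℕ →₀ V) →+ (ℕ →₀ V) := Finsupp.mapRange.addMonoidHom αV
  let mβ : (ℕ →₀ V) →+ (ℕ →₀ V) := Finsupp.mapRange.addMonoidHom βV
  let X : AddMonoid.End (ℕ →₀ V) := mα + mβ.comp (shift V) - (shift V).comp (shift V)
  have hXa : ∀ f, X f = mα f + mβ (shift V f) - shift V (shift V f) := fun f => rfl
  have hα' : ∀ l g, α ((t ^ l) g) = (t ^ l) (α g) := fun l g => by
    have h : α * t ^ l = t ^ l * α := (Commute.pow_right (show Commute α t from hαt) l)
    exact congrArg (fun e : AddMonoid.End G => e g) h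
  have hβ' : ∀ l g, β ((t ^ l) g) = (t ^ l) (β g) := fun l g => by
    have h : β * t ^ l = t ^ l * β := (Commute.pow_right (show Commute β t from hβt) l)
    exact congrArg (fun e : AddMonoid.End G => e g) h
  have ht' : ∀ l g, t ((t ^ l) g) = (t ^ (l + 1)) g := fun l g => by
    rw [pow_succ']
    rfl
  have hTX : ∀ f, T (X f) = x (T f) := by
    intro f
    have h : T.comp X = x.comp T := by
      refine Finsupp.addHom_ext fun l v => ?_
      change T (X (Finsupp.single l v)) = x (T (Finsupp.single l v))
      have e1 : mα (Finsupp.single l v) = Finsupp.single l (αV v) :=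
        Finsupp.mapRange_single (hf := map_zero αV)
      have e2 : mβ (Finsupp.single (l + 1) v) = Finsupp.single (l + 1) (βV v) :=
        Finsupp.mapRange_single (hf := map_zero βV)
      rw [hXa, shift_single, shift_single, e1, e2, map_sub, map_add, hTs, hTs, hTs, hTs, hx]
      change _ = α ((t ^ l) (j v)) + β (t ((t ^ l) (j v))) - t (t ((t ^ l) (j v)))
      rw [ht', ht', hα', hβ', hα, hβ]
    exact congrArg (fun e : (ℕ →₀ V) →+ G => e f) h
  have hTt : ∀ f, T (shift V f) = t (T f) := by
    intro f
    have h : T.comp (shift V) = t.comp T := by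
      refine Finsupp.addHom_ext fun l v => ?_
      change T (shift V (Finsupp.single l v)) = t (T (Finsupp.single l v))
      rw [shift_single, hTs, hTs, ht']
    exact congrArg (fun e : (ℕ →₀ V) →+ G => e f) h
  have hXval : ∀ f n, X f (n + 2) = αV (f (n + 2)) + βV (f (n + 1)) - f n := by
    intro f n
    rw [hXa]
    change αV (f (n + 2)) + βV (shift V f (n + 1 + 1)) - shift V (shift V f) (n + 1 + 1) = _
    rw [shift_succ, shift_succ, shift_succ]
  have hXk : ∀ (k D : ℕ) (f : ℕ →₀ V), (∀ l, D < l → f l = 0) →
      (∀ l, D + 2 * k < l → (X ^ k) f l = 0) ∧ (X ^ k) f (D + 2 * k) = (-1 : ℤ) ^ k • f D := by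
    intro k
    induction k with
    | zero =>
      intro D f hf
      refine ⟨fun l hl => hf l hl, ?_⟩
      rw [pow_zero, pow_zero, one_smul]
      rfl
    | succ k ih =>
      intro D f hf
      obtain ⟨h1, h2⟩ := ih D f hf
      have hp : (X ^ (k + 1)) f = X ((X ^ k) f) := by
        rw [pow_succ']
        rfl
      constructor
      · intro l hl
        obtain ⟨n, rfl⟩ : ∃ n, l = n + 2 := ⟨l - 2, by omega⟩
        rw [hp, hXval, h1 (n + 2) (by omega), h1 (n + 1) (by omega), h1 n (by omega), map_zero,
          map_zero, add_zero, sub_zero]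
      · have e : D + 2 * (k + 1) = D + 2 * k + 2 := by ring
        rw [e, hp, hXval, h1 _ (by omega), h1 _ (by omega), h2, map_zero, map_zero, add_zero,
          zero_sub, pow_succ, mul_neg_one, neg_smul]
  -- the comparison
  let Te : (ℕ →₀ V) ≃+ G := AddEquiv.ofBijective T hTb
  let N : (ℕ →₀ V) →+ (ℕ →₀ V) := Te.symm.toAddMonoidHom.comp S
  have hNs : ∀ D v, N (Finsupp.single D v) =
      (X ^ (D / 2)) (Finsupp.single (D % 2) v) := by
    intro D v
    change Te.symm (S (Finsupp.single D v)) = _
    rw [AddEquiv.symm_apply_eq]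
    change _ = T _
    have h1 : ∀ k f, T ((X ^ k) f) = (x ^ k) (T f) := by
      intro k
      induction k with
      | zero =>
        intro f
        rfl
      | succ k ih =>
        intro f
        rw [pow_succ', pow_succ']
        change T (X ((X ^ k) f)) = x ((x ^ k) (T f))
        rw [hTX, ih]
    rw [h1, hTs, hSs]
    rfl
  have hN : Function.Bijective N := by
    refine tri_bijective N (fun D => (-1) ^ (D / 2)) (fun D => ?_) (fun D v l hl => ?_)
      (fun D v => ?_)
    · rw [← mul_pow, neg_mul_neg, one_mul, one_pow]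
    · rw [hNs]
      refine (hXk (D / 2) (D % 2) (Finsupp.single (D % 2) v) (fun l hl => ?_)).1 l (by omega)
      exact Finsupp.single_eq_of_ne (by omega)
    · rw [hNs]
      have h2 := (hXk (D / 2) (D % 2) (Finsupp.single (D % 2) v) (fun l hl =>
        Finsupp.single_eq_of_ne (by omega))).2
      rw [Nat.mod_add_div, Finsupp.single_eq_same] at h2
      exact h2
  have hS : ∀ f, S f = Te (N f) := fun f => (Te.apply_symm_apply (S f)).symm
  have hS' : (S : (ℕ →₀ V) → G) = Te ∘ N := funext hS
  rw [hS']
  exact Te.bijective.comp hN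

end Pool.Agent.Helper60.Sn
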